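import Pool.Agent.Helper4_DQ2.TAY
import Pool.Agent.Helper52_DQ2.NAT
import Pool.Agent.Helper24_DQ2.NulRow
import Pool.Agent.Helper40_DQ2.PSD
import Pool.Agent.Helper75_DQ2.DO2
import Pool.Agent.Helper19_DQ2.DO3
import Pool.Agent.Helper93_DQ2.WRS
import Pool.Agent.Helper71_DQ2.EXT
import Pool.Agent.Helper50_DQ2.PRD
import Pool.Agent.Helper46_DQ2.ASM
import Pool.Agent.Helper11_DQ2.HOM
import Pool.Agent.Helper39_DQ2.SPC
import Pool.Agent.Helper19_DQ2.FLD
import Pool.Agent.Helper34_DQ2.TRP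
import Pool.Agent.Helper32_DQ2.LFD
import Pool.Agent.Helper95_DQ2.NUM
import Pool.Agent.Helper61_DQ2.CRT
import Pool.Agent.Helper16_DQ2.TWP
import Pool.Agent.Helper59_DQ2.IR1
import Pool.Agent.Helper43_DQ2.TRS
import Pool.Agent.Helper3_DQ2.IR2
import Pool.Agent.Helper15_DQ2.IRR
import Pool.Agent.Helper81_DQ2.DM2
import Pool.Agent.Helper86_DQ2.DM3
import Pool.Agent.Helper8_DQ2.FIN

/-! Density of the points of degree `k d` on the universal quadric and the universal cubic.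

For all `n ≥ 2`, `k ≥ 1` and `d = 2` or `d = 3`: the closed points of degree `k d` of the universal
hypersurface `X_{n,d}` over `K = ℂ(B_{n,d})` are Zariski dense in the symmetric power
`Sym^(kd) X_{n,d}` (Q2 for these `d`, with `κ(n,d) = 1`). -/

namespace Pool.Agent.Results.MP_366d03_ag.DensePoints

open Pool.Agent.LDP

/-- The vectors `x_0, ..., x_(m-1)` over the algebraic closure of `K` are homogeneous coordinates of
the geometric points of one closed point of degree `m` of the hypersurface `F = 0`: they are nonzero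
zeros of `F`, no two of them are proportional, and up to scalars they form one orbit of the Galois
group of `K`. -/
structure IsClosedPoint {K : Type} [Field K] {N : ℕ} (F : MvPolynomial (Fin N) K) (m : ℕ)
    (x : Fin m → Fin N → AlgebraicClosure K) : Prop where
  on : ∀ i, MvPolynomial.aeval (x i) F = 0
  ne : ∀ i, x i ≠ 0
  inj : ∀ i j, i ≠ j → ∀ c : AlgebraicClosure K, x i ≠ c • x j
  trans : ∀ i j, ∃ (θ : AlgebraicClosure K ≃ₐ[K] AlgebraicClosure K) (c : AlgebraicClosure K),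
    (fun a => θ (x i a)) = c • x j
  stab : ∀ (θ : AlgebraicClosure K ≃ₐ[K] AlgebraicClosure K) (i), ∃ (j : Fin m)
    (c : AlgebraicClosure K), (fun a => θ (x i a)) = c • x j

/-- The closed points of degree `m` of the hypersurface `F = 0` are Zariski dense in its `m`-th
symmetric power: every polynomial `G` in the coordinates of `m` points, with coefficients in the
algebraic closure, which is nonzero at some `m`-tuple of points of the affine cone over `F = 0`, is
nonzero at (the geometric points of) some closed point of degree `m`. -/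
def Dense {K : Type} [Field K] {N : ℕ} (F : MvPolynomial (Fin N) K) (m : ℕ) : Prop :=
  ∀ (G : MvPolynomial (Fin m × Fin N) (AlgebraicClosure K))
    (y : Fin m → Fin N → AlgebraicClosure K), (∀ i, MvPolynomial.aeval (y i) F = 0) →
    MvPolynomial.eval (fun q => y q.1 q.2) G ≠ 0 →
    ∃ x : Fin m → Fin N → AlgebraicClosure K,
      IsClosedPoint F m x ∧ MvPolynomial.eval (fun q => x q.1 q.2) G ≠ 0

/-- Q2 for `d = 2` and `d = 3`, with `κ(n,d) = 1`. -/
theorem result (n d k : ℕ) (hn : 2 ≤ n) (hd : d = 2 ∨ d = 3) (hk : 1 ≤ k) :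
    Dense (Fin.FK n d) (k * d) := by
  have hNAT : DQ2.NAT := DQ2.H52.nat
  have hTAY : DQ2.TAY := DQ2.H4.tay
  have hNUL : DQ2.NUL := DQ2.H24.nul
  have hPSD : DQ2.PSD := DQ2.H40.psd hNUL
  have hDO2 : DQ2.DO2 := DQ2.H75.do2 hTAY hNUL
  have hDO3 : DQ2.DO3 := DQ2.H19.do3 hNAT hTAY hPSD
  have hASM : DQ2.ASM := DQ2.H46.asm DQ2.H93.wrs DQ2.H71.ext DQ2.H50.prd
  have hHOM : DQ2.HOM := DQ2.H11.hom
  have hSPC : DQ2.SPC := DQ2.H39.spc hHOM
  have hFLD : DQ2.FLD := DQ2.H19.fld hHOM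
  have hTRP : DQ2.TRP := DQ2.H34.trp hFLD
  have hLFD : DQ2.LFD := DQ2.H32.lfd hFLD
  have hCRT : DQ2.CRT := DQ2.H61.crt hNAT hTRP hSPC DQ2.H95.num
  have hTWP : DQ2.TWP := DQ2.H16.twp hHOM
  have hIR2 : DQ2.IR2 := DQ2.H3.ir2 hHOM DQ2.H43.trs
  have hIRR : DQ2.IRR := DQ2.H15.irr hHOM DQ2.H59.ir1 hIR2
  have hDM2 : DQ2.DM2 := DQ2.H81.dm2 hNAT hTAY hHOM hLFD hCRT hIRR hDO2
  have hDM3 : DQ2.DM3 := DQ2.H86.dm3 hNAT hTAY hHOM hLFD hCRT hIRR hDO3
  have hFIN : DQ2.FIN := DQ2.H8.fin hASM hTWP hDM2 hDM3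
  rw [Fin.FK_eq]
  intro G y hy hG
  obtain ⟨x, hx, hGx⟩ := hFIN n d k hn hd hk G y hy hG
  exact ⟨x, ⟨hx.on, hx.ne, hx.inj, hx.trans, hx.stab⟩, hGx⟩

end Pool.Agent.Results.MP_366d03_ag.DensePoints
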