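import Pool.Agent.Helper38_LDP.Main1
import Pool.Agent.Helper38_LDP.Final
import Pool.Agent.Helper38_LDP.Spe
import Pool.Agent.Helper4_LDP.Chi
import Pool.Agent.Helper8_LDP.MonNum
import Pool.Agent.Helper9_LDP.Rir
import Pool.Agent.Helper9_LDP.Two
import Pool.Agent.Helper15_LDP.Pri
import Pool.Agent.Helper26_LDP.Gen
import Pool.Agent.Helper26_LDP.Idl
import Pool.Agent.Helper26_LDP.Sem
import Pool.Agent.Helper46_LDP.Bez
import Pool.Agent.Helper46_LDP.Conic
import Pool.Agent.Helper47_LDP.Cur
import Pool.Agent.Helper47_LDP.Main0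
import Pool.Agent.Helper47_LDP.Pts
import Pool.Agent.Helper48_LDP.DimMul
import Pool.Agent.Helper54_LDP.Re
import Pool.Agent.Helper68_LDP.Hil
import Pool.Agent.Helper68_LDP.Irr
import Pool.Agent.Helper85_LDP.Exa
import Pool.Agent.Helper85_LDP.Uni

/-! Large degree points on universal hypersurfaces. For all `n ≥ 2`, `d ≥ 2` with
`(n,d) ≠ (2,2)` and every `k ≥ max d 3`, the universal hypersurface `X_{n,d}` over
`K = ℂ(B_{n,d})` has a closed point `P` of degree `k d` such that every integral curve of degree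
`k` in `ℙ^{n+1}_K` through `P` is contained in `X_{n,d}`: `P` is not supported on a degree `k`
curve. -/

namespace Pool.Agent.Results.MP_366d03_ag.LargeDegreePoints

open Pool.Agent.LDP

/-- Q1 for all `(n,d) ≠ (2,2)`, with `κ(n,d) = max d 3`. -/
theorem result (n d k : ℕ) (hn : 2 ≤ n) (hd : 2 ≤ d) (hnd : ¬ (n = 2 ∧ d = 2))
    (hk : max d 3 ≤ k) : Fin.HasPt (Fin.FK n d) (k * d) k := by
  rw [Fin.FK_eq]
  apply Fin.hasPt_of
  have hDim : DimStmt := H48.dim
  have hMul : MulStmt := H48.mul
  have hExa : ExaStmt := H85.exa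
  have hBez : BezStmt := H46.bez hDim hExa hMul
  have hIrr : IrrStmt := H68.irr
  have hUni : UniStmt := H85.uni
  have hMon : MonStmt := H8.mon
  have hNum : NumStmt := H8.numS
  have hSpe : SpeStmt := H38.spe hBez hUni hIrr hMon
  have hSem : SemStmt := H26.sem hMon hNum
  have hRe1 : Re1Stmt := H54.re1
  have hRe2 : Re2Stmt := H54.re2
  have hGen : GenStmt := H26.gen hRe1 hRe2
  have hRir : RirStmt := H9.rir hGen hMon
  have hPts : PtsStmt := H47.pts hMon hNum
  have hIdl : IdlStmt := H26.idl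
  have hHil : HilStmt := H68.hil
  have hCur : CurStmt := H47.cur
  have hChi : ChiStmt := H4.chi hRe1 hRe2
  have hPri : PriStmt := H15.pri hDim hMul hExa hBez
  have hTwo : TwoStmt := H9.two hGen hMon
  have hCon : ConStmt := H46.con hHil
  have hkd : d ≤ k := (le_max_left _ _).trans hk
  have hk3 : 3 ≤ k := (le_max_right _ _).trans hk
  rcases Nat.lt_or_ge d 3 with h3 | h3
  · have hd2 : d = 2 := by omega
    subst hd2
    exact H38.main1 hSpe hSem hGen hRir hPts hIdl hHil hCur hChi hPri hRe2 hTwo hCon n k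
      (by omega) hk3
  · exact H47.main0 hSpe hSem hGen hRir hPts hIdl hHil hCur hChi hPri hRe2 n d k hn h3 hkd

end Pool.Agent.Results.MP_366d03_ag.LargeDegreePoints
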